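import Pool.Agent.H30EV.Pts

/-!
# Rank zero and trivial 2-primary Tate-Shafarevich groups over all the extensions of 2-power degree in
# an explicit infinite class, and for all the quadratic twists in an explicit infinite class, for a
# positive proportion of all elliptic curves over `ℚ`

The definitions (`IsMinimal`, `Curves`, `FieldFor`, `TwistFor`, `ShaCocycle`, `Trivial`, ...) are in
`Pool/Agent/H30EV/Defs.lean`.

A Galois extension `K / ℚ` of 2-power degree is admissible for `E : y² = x³ + A x + B` if `2` is
unramified in `K`, `x³ + A x + B` has no zero modulo the primes which ramify in `K`, and the odd primes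
which divide `A` and `B` split completely in `K`. A squarefree integer `d` is admissible if the cubic
has no zero modulo the odd primes dividing `d` and a condition modulo `4` on `d` holds.

Theorem: a positive proportion of all `E / ℚ` has, for ALL the admissible `K` and ALL the admissible `d`
at the same time, `E^(d)(K) = 0`, `Sel_2(E^(d)/K) = 0`, `Ш(E^(d)/K)[2^∞] = 0`, and `E(F) = 0` for
`F = K(√d)`. Any one Galois extension `K₀ / ℚ` of 2-power degree unramified at `2` and any one squarefree
`δ` may be prescribed to be admissible.

The proof: see `Pool/Agent/H30EV`. For the curves of a family of positive density (from the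
projects PQ and PV of the library) the relaxed 2-Selmer group over `ℚ` of a twist by a product of
primes is zero. A class in the Selmer group of the twist by `d` over `K` gives, by descent
along a tower of steps of degree two in the compositum `K(√d)(θ)`, `θ` a zero of the cubic, an invariant
class, hence a class over `ℚ`; at the primes which ramify in `K` or divide `d` there is only one
prime of `ℚ(θ)`, and nothing is needed there; at `2` the local images over all unramified
extensions of `ℚ_2` are computed for all the twists by `d = 1, 2` modulo `4`.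
-/

set_option autoImplicit false
set_option linter.all false

open Filter NumberField
open Pool.Agent.H30EV

namespace Pool.Agent.Results.MP_f50388_nt.AllTwoExtensionsAllTwists

/-- For every Galois extension `K₀ / ℚ` of degree `2 ^ n` in which `2` is unramified, every squarefree
integer `δ` and every finite set `T` of odd primes there is `c > 0` such that for all large `X` at least
`c` times the number of all elliptic curves `q = (A, B)` over `ℚ` of height at most `X` have the
following properties: `K₀` is admissible for `q`; `1` and `δ` are admissible for `q`; the polynomial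
`x ^ 3 + A x + B` has no zero modulo the primes in `T`; for ALL number fields `K` admissible
for `q` and ALL integers `d` admissible for `q` the twist `E^(d)` has no points over `K` but the
point at infinity, `Sel_2(E^(d)/K) = 0` and `Ш(E^(d)/K)[2^∞] = 0`; and `E(F) = 0` for all number fields
`F = K(s)`, `K` admissible, `s ^ 2 = d`, `d` admissible. -/
theorem result (K₀ : Type) [Field K₀] [NumberField K₀] [IsGalois ℚ K₀] (n : ℕ)
    (hn : Module.finrank ℚ K₀ = 2 ^ n) (h2 : ¬ Ramified K₀ 2) (δ : ℤ) (hδ : Squarefree δ)
    (T : Finset ℕ) (hT : ∀ p ∈ T, p.Prime ∧ p ≠ 2) :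
    (∀ X : ℕ, (Curves X).Finite) ∧
    ∃ c : ℝ, 0 < c ∧ ∀ᶠ X : ℕ in atTop, 0 < (Curves X).ncard ∧
      c * ((Curves X).ncard : ℝ) ≤ ({q ∈ Curves X |
        FieldFor K₀ q ∧ TwistFor q 1 ∧ TwistFor q δ ∧ (∀ p ∈ T, NoZero q p) ∧
        (∀ (K : Type) [Field K] [NumberField K], FieldFor K q → ∀ d : ℤ, TwistFor q d →
          Trivial K (twist q d)) ∧
        (∀ (F : Type) [Field F] [NumberField F] (K : IntermediateField ℚ F) (d : ℤ) (s : F),
          FieldFor K q → TwistFor q d → s ^ 2 = (d : F) → IntermediateField.adjoin K {s} = ⊤ →
          Subsingleton (curve F q).toAffine.Point)}.ncard : ℝ) := by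
  refine ⟨curves_fin, ?_⟩
  obtain ⟨c, hc, h⟩ := main K₀ hn h2 δ hδ T
  refine ⟨c, hc, ?_⟩
  filter_upwards [h] with X hX
  refine ⟨hX.1, hX.2.trans ?_⟩
  have h3 : {q ∈ Curves X | FieldFor K₀ q ∧ TwistFor q 1 ∧ TwistFor q δ ∧
      (∀ p ∈ T, p.Prime → p ≠ 2 → NoZero q p) ∧ Nice q} ⊆ {q ∈ Curves X |
        FieldFor K₀ q ∧ TwistFor q 1 ∧ TwistFor q δ ∧ (∀ p ∈ T, NoZero q p) ∧
        (∀ (K : Type) [Field K] [NumberField K], FieldFor K q → ∀ d : ℤ, TwistFor q d →
          Trivial K (twist q d)) ∧
        (∀ (F : Type) [Field F] [NumberField F] (K : IntermediateField ℚ F) (d : ℤ) (s : F),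
          FieldFor K q → TwistFor q d → s ^ 2 = (d : F) → IntermediateField.adjoin K {s} = ⊤ →
          Subsingleton (curve F q).toAffine.Point)} := by
    rintro q ⟨hq, hf, h1, hd, hz, hnice⟩
    refine ⟨hq, hf, h1, hd, fun p hp => hz p hp (hT p hp).1 (hT p hp).2, hnice, ?_⟩
    intro F _ _ K d s hK hd' hs htop
    exact points_adjoin hq.1.elliptic K hd'.squarefree.ne_zero hs htop (hnice K hK 1 h1).points
      (hnice K hK d hd').points
  have h4 := Set.ncard_le_ncard h3 ((curves_fin X).subset fun q hq => hq.1)
  exact_mod_cast h4

end Pool.Agent.Results.MP_f50388_nt.AllTwoExtensionsAllTwists
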