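import Pool.Agent.H29C.Fin
import Pool.Agent.H29C.ThmD
import Pool.Agent.H29C.Adm0
import Pool.Agent.H29C.PRD
import Pool.Agent.H30T.Cubic6
import Pool.Agent.H30T.Defs7
import Pool.Agent.Helper29L.Ctrl3
import Pool.Agent.Helper29L.Shell1

/-!
# Almost ALL elliptic curves over `ℚ`: Ш[2^∞] over all admissible number fields, with all admissible twists, for the
# proportion of Poonen and Rains of the bounded twists

The elliptic curves over `ℚ` are given by all pairs `P = (a, b)` of integers with `4 a ^ 3 + 27 b ^ 2 ≠ 0`, ordered by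
`H(a, b) = max (|a| ^ 3) (b ^ 2)`, or by the minimal pairs (there is no prime `p` with `p ^ 4 ∣ a` and `p ^ 6 ∣ b`), one for each
isomorphism class. Let `C_n = ∏_{j ≥ 0} (1 + 2^{-j})⁻¹ ∏_{i = 1}^n 2 / (2 ^ i - 1)`; `2 C_0 = 0.419…`, `2 C_1 = 0.838…`.

The integer `t` is admissible for `E` (`AdmissibleTwist`) if it is positive, squarefree, `1` modulo `8`, a square modulo the
primes whose square divides `4 a ^ 3 + 27 b ^ 2`, and `x ^ 3 + a x + b` has no zero modulo the primes dividing `t`. The number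
field `M` is admissible for `E` (`AdmissibleE`) if it is a real Galois extension of `ℚ` of degree a power of two, `2` and the
primes whose square divides `4 a ^ 3 + 27 b ^ 2` split completely in `M`, and `x ^ 3 + a x + b` has no zero modulo the primes
which are ramified in `M`.

Theorem. Let `M₀` be a real Galois extension of `ℚ` of degree a power of two in which `2` splits completely (for
instance `M₀ = ℚ`). Then `M₀` is admissible for a positive proportion of all elliptic curves over `ℚ`. For every `ε > 0`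
there are `k` and finite disjoint sets `𝒬 0`, …, `𝒬 k` of primes (`1` modulo `8`, split completely in `M₀`) such
that for all large `X` all but at most the proportion `ε` of ALL pairs `E` with `H(E) ≤ X` (and of all minimal
pairs) satisfy the following. Let `L_i(E)` be the set of the `Q ∈ 𝒬 i` for which `Q ∣ b` and `x ^ 2 + a` is irreducible modulo
`Q`. The cubic `x ^ 3 + a x + b` is irreducible, the sets `L_i(E)` are not empty; if `M₀` is admissible for `E` then it is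
admissible for ALL the twists `E^(d)`, `d = Q_0 ⋯ Q_{j - 1}`, `Q_i ∈ L_i(E)`, `j ≤ k + 1`. There is a parity `s` such that for
`j = k` and `j = k + 1`, if the primes `Q_i ∈ L_i(E)`, `i < j`, are chosen uniformly and independently,
`d = Q_0 ⋯ Q_{j - 1}` and `E' = E^(d)`:

* if `j = s` modulo `2` then `E'` is controlled with the probability `2 C_0`, up to `ε`: for ALL integers `t` which are
  admissible for `E'` and ALL number fields `M` which are admissible for `E'^(t)` (for `t = 1` for instance `M₀`, if it is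
  admissible for `E`) the group `E'^(t)(M)` is finite of odd order, `Sel_2(E'^(t)/M) = 0` and `Ш(E'^(t)/M)[2^∞] = 0`;
* if `j ≠ s` modulo `2` then `2 ^ rank * #Ш(E'/ℚ)[2] = 2` with the probability `2 C_1`, up to `ε`, so that the
  rank is at most one;
* in both cases, for ALL sets `B` of natural numbers, `2 ^ rank * #Ш(E'/ℚ)[2] = 2 ^ n` with `n ∈ B` has the
  probability `2 ∑ C_n`, up to `ε`, the sum over the `n ∈ B` with `n = j + s` modulo `2`.

So for almost all elliptic curves over `ℚ` there is a twist by a squarefree `d ≤ D(ε)` which is controlled, and for which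
`M₀` is admissible if it is admissible for `E`. `t = 1` and `M = ℚ` are always admissible; if `x ^ 3 + a x + b` is irreducible
then there are infinitely many admissible primes `t` and every admissible field is contained in an admissible field of
twice the degree.

Proof. `Pool/Agent/H29A`, `H29B` (see `Results/MP_8cb858_nt/AllMomentsAlmostEveryCurve.lean`) for the distribution of
`dim Sel_2`, `H29C/ThmD.lean`, `PRD.lean` for the primes which split in `M₀`; `Pool/Agent/H29C`, `H30T` for the passage from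
`Sel_2(E'/ℚ) = 0` to all `t` and `M` (descent along the 2-group `Gal(M/ℚ)`: a nonzero class over `M` gives a nonzero
invariant class, which comes from `ℚ`).

Written with helpers 6, 12, 13, 22, 28, 52, 53, 58, 61, 78, 85, 86, 88, 94 (`H29A`, `H29B`), 3, 14, 28, 72, 74, 95 (`H29C`), 30
and others (`H30T`), 23, 24, 30, 52, 61, 90 (`Helper29L`), on the library of the projects named in their headers.
-/

set_option autoImplicit false
set_option linter.all false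

namespace Pool.Agent.Results.MP_f50388_nt.AlmostEveryCurve

open Filter IsDedekindDomain NumberField
open Pool.Agent.H30EV (curve twist SelmerTrivial ShaTrivial Pts)
open Pool.Agent.H30GR (Sel2 Sha)
open Pool.Agent.H30T (AdmissibleE SplitsAt)
open scoped Classical

/-- The height `H(a, b) = max (|a| ^ 3) (|b| ^ 2)`. -/
def height (P : ℤ × ℤ) : ℕ := max (P.1.natAbs ^ 3) (P.2.natAbs ^ 2)

/-- All pairs `(a, b)` of integers with `4 a ^ 3 + 27 b ^ 2 ≠ 0` and `H(a, b) ≤ X`. -/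
def pairs (X : ℕ) : Set (ℤ × ℤ) := {P | 4 * P.1 ^ 3 + 27 * P.2 ^ 2 ≠ 0 ∧ height P ≤ X}

/-- The minimal pairs of height at most `X`: one for each isomorphism class of elliptic curves over `ℚ`. -/
def minimalPairs (X : ℕ) : Set (ℤ × ℤ) :=
  {P | P ∈ pairs X ∧ ∀ p : ℕ, p.Prime → ¬ ((p : ℤ) ^ 4 ∣ P.1 ∧ (p : ℤ) ^ 6 ∣ P.2)}

/-- The number `C_n` of Poonen and Rains. -/
noncomputable def poonenRains (n : ℕ) : ℝ :=
  (∏' j : ℕ, (1 + (1 / 2 : ℝ) ^ j))⁻¹ * ∏ i ∈ Finset.Icc 1 n, (2 : ℝ) / (2 ^ i - 1)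

/-- `Ш(P/ℚ)[2]` is finite and `2 ^ rank * #Ш(P/ℚ)[2] = N`. -/
def RankSha (P : ℤ × ℤ) (N : ℕ) : Prop :=
  Finite {x : Sha (curve ℚ P) // 2 • x = 0} ∧
    2 ^ Module.finrank ℤ (Pts (curve ℚ P) ℚ) * Nat.card {x : Sha (curve ℚ P) // 2 • x = 0} = N

/-- `t` is admissible for the curve `P = (a, b)`: positive, squarefree, `1` modulo `8`, a square modulo the primes
whose square divides `4 a ^ 3 + 27 b ^ 2`, and `x ^ 3 + a x + b` has no zero modulo the primes dividing `t`. -/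
structure AdmissibleTwist (P : ℤ × ℤ) (t : ℤ) : Prop where
  pos : 0 < t
  squarefree : Squarefree t
  mod_eight : t % 8 = 1
  square : ∀ p : ℕ, p.Prime → (p : ℤ) ^ 2 ∣ 4 * P.1 ^ 3 + 27 * P.2 ^ 2 → ∃ z : ℤ, (p : ℤ) ∣ z ^ 2 - t
  noZero : ∀ p : ℕ, p.Prime → (p : ℤ) ∣ t → ∀ z : ℤ, ¬ (p : ℤ) ∣ z ^ 3 + P.1 * z + P.2

/-- `P(M)` is finite of odd order, `Sel_2(P/M) = 0` and `Ш(P/M)[2^∞] = 0`. -/
structure NoTwoPart (M : Type) [Field M] [NumberField M] (P : ℤ × ℤ) : Prop where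
  finite : Finite (curve M P).toAffine.Point
  odd : Odd (Nat.card (curve M P).toAffine.Point)
  selmer : SelmerTrivial (curve M P)
  sha : ShaTrivial (curve M P)

/-- The curve `P` is controlled: no 2-part for all the admissible twists, over all the number fields which are
admissible for them. -/
def Controlled (P : ℤ × ℤ) : Prop := ∀ t : ℤ, AdmissibleTwist P t →
  ∀ (M : Type) [Field M] [NumberField M], AdmissibleE M (P.1 * t ^ 2) (P.2 * t ^ 3) →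
    NoTwoPart M (twist P t)

/-- The primes `Q ∈ 𝒬` which divide `b` and for which `x ^ 2 + a` has no zero modulo `Q`. -/
noncomputable def level (𝒬 : Finset ℕ) (P : ℤ × ℤ) : Finset ℕ :=
  𝒬.filter fun Q => (Q : ℤ) ∣ P.2 ∧ ∀ z : ℤ, ¬ (Q : ℤ) ∣ z ^ 2 + P.1

/-- The probability that `P^{(d)}` is in the set `𝒮`, `d = Q_0 ⋯ Q_{j - 1}`, if the primes `Q_i` are chosen
uniformly in the levels `level (𝒬 i) P`, `i < j`. -/
noncomputable def share (j : ℕ) (𝒬 : ℕ → Finset ℕ) (P : ℤ × ℤ) (𝒮 : Set (ℤ × ℤ)) : ℝ :=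
  (((Fintype.piFinset fun i : Fin j => level (𝒬 i) P).filter fun Q =>
    twist P ((∏ i, Q i : ℕ) : ℤ) ∈ 𝒮).card : ℝ) /
  ((Fintype.piFinset fun i : Fin j => level (𝒬 i) P).card : ℝ)

/-- The assertions on the twists of `P`. -/
def Fans (M₀ : Type) [Field M₀] [NumberField M₀] (ε : ℝ) (k : ℕ) (𝒬 : ℕ → Finset ℕ) (P : ℤ × ℤ) :
    Prop :=
  (∀ z : ℤ, z ^ 3 + P.1 * z + P.2 ≠ 0) ∧ (∀ i ≤ k, (level (𝒬 i) P).Nonempty) ∧
  (AdmissibleE M₀ P.1 P.2 → ∀ j ≤ k + 1, ∀ Q : Fin j → ℕ, (∀ i : Fin j, Q i ∈ level (𝒬 i) P) →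
    AdmissibleE M₀ (twist P ((∏ i, Q i : ℕ) : ℤ)).1 (twist P ((∏ i, Q i : ℕ) : ℤ)).2) ∧
  ∃ s : ℕ, ∀ j : ℕ, j = k ∨ j = k + 1 →
    (j % 2 = s % 2 → |share j 𝒬 P {E | Controlled E} - 2 * poonenRains 0| ≤ ε) ∧
    (j % 2 ≠ s % 2 → |share j 𝒬 P {E | RankSha E 2} - 2 * poonenRains 1| ≤ ε) ∧
    ∀ B : Set ℕ, |share j 𝒬 P {E | ∃ n ∈ B, RankSha E (2 ^ n)} -
      2 * ∑' n, (B ∩ {n | n % 2 = (s + j) % 2}).indicator poonenRains n| ≤ ε

/-- The assertion `𝒮` is true for all but at most the proportion `ε` of the pairs, and of the minimal pairs, of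
height at most `X`, for all large `X`. -/
def MostCurves (ε : ℝ) (𝒮 : ℤ × ℤ → Prop) : Prop := ∀ᶠ X : ℕ in atTop,
  ({P ∈ pairs X | ¬ 𝒮 P}.ncard : ℝ) ≤ ε * ((pairs X).ncard : ℝ) ∧
  ({P ∈ minimalPairs X | ¬ 𝒮 P}.ncard : ℝ) ≤ ε * ((minimalPairs X).ncard : ℝ)

/-- There are arbitrarily large primes which are admissible twists, and every admissible field is contained in an
admissible field of twice the degree. -/
def Many (P : ℤ × ℤ) : Prop :=
  (∀ N : ℕ, ∃ l : ℕ, l.Prime ∧ N < l ∧ AdmissibleTwist P l) ∧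
  ∀ (M : Type) [Field M] [NumberField M], AdmissibleE M P.1 P.2 →
    ∃ (M' : Type) (_ : Field M') (_ : NumberField M'), Nonempty (M →+* M') ∧
      Module.finrank ℚ M' = 2 * Module.finrank ℚ M ∧ AdmissibleE M' P.1 P.2

/-! ### The deterministic theorem -/

theorem adm_iff {P : ℤ × ℤ} {t : ℤ} : AdmissibleTwist P t ↔ Pool.Agent.H29C.AdmT P.1 P.2 t :=
  ⟨fun h => ⟨h.pos, h.squarefree, h.mod_eight, h.square, h.noZero⟩,
    fun h => ⟨h.pos, h.sqf, h.m8, h.sq, h.noz⟩⟩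

theorem adm_one (P : ℤ × ℤ) : AdmissibleTwist P 1 where
  pos := one_pos
  squarefree := squarefree_one
  mod_eight := by norm_num
  square p _ _ := ⟨1, by norm_num⟩
  noZero p hp h := by
    exfalso
    have : p ∣ 1 := by exact_mod_cast h
    exact hp.one_lt.ne' (Nat.dvd_one.1 this)

/-- The field `ℚ` is admissible. -/
theorem adm_rat (a b : ℤ) : AdmissibleE ℚ a b := by
  have key : ∀ (p : ℕ), p.Prime → ∀ w : HeightOneSpectrum (𝓞 ℚ), (p : 𝓞 ℚ) ∉ w.asIdeal ^ 2 := by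
    intro p hp w h
    obtain ⟨q, hq, -, hk⟩ := Pool.Agent.H30T.ratp w
    have h1 := (hk 2 (p : ℤ)).1 (by exact_mod_cast h)
    have h2 : q ^ 2 ∣ p := by exact_mod_cast h1
    have h3 := hp.prime.squarefree q (by rwa [← sq])
    exact hq.one_lt.ne' (Nat.isUnit_iff.1 h3)
  have hgal : IsGalois ℚ ℚ := by
    convert IsGalois.self ℚ
  refine ⟨hgal, ⟨0, by simp⟩, ⟨algebraMap ℚ ℝ⟩, fun p hp _ w hw => ⟨key p hp w, ?_⟩, ?_⟩
  · obtain ⟨q, hq, hsp, hk⟩ := Pool.Agent.H30T.ratp w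
    have h1 := (hk 1 (p : ℤ)).1 (by
      rw [pow_one]
      exact_mod_cast hw)
    have h2 : q ∣ p := by
      rw [pow_one] at h1
      exact_mod_cast h1
    have h3 : q = p := (Nat.prime_dvd_prime_iff_eq hq hp).1 h2
    have e : Nat.card (𝓞 ℚ ⧸ w.asIdeal) = Ideal.absNorm w.asIdeal := rfl
    rw [e, hsp, Ideal.absNorm_span_singleton, h3]
    have h4 : Algebra.norm ℤ (((p : ℕ) : ℤ) : 𝓞 ℚ) = ((p : ℕ) : ℤ) ^ Module.finrank ℤ (𝓞 ℚ) :=
      Algebra.norm_algebraMap (p : ℤ)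
    rw [RingOfIntegers.rank, Module.finrank_self, pow_one, Int.cast_natCast] at h4
    rw [h4, Int.natAbs_natCast]
  · rintro p hp ⟨w, hw⟩
    exact absurd hw (key p hp w)

theorem admE_iff {F : Type} [Field F] [NumberField F] {A B : ℤ} :
    AdmissibleE F A B ↔ Pool.Agent.H30T.AdmissibleFor F (Pool.Agent.H29C.cb A B) := by
  have e : ∀ p : ℕ, (p : ℤ) ^ 2 ∣ (Pool.Agent.H30T.cubic A B).discr ↔
      (p : ℤ) ^ 2 ∣ 4 * A ^ 3 + 27 * B ^ 2 := by
    intro p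
    rw [Pool.Agent.H30T.cubic_discr, dvd_neg]
  constructor
  · rintro ⟨h1, h2, h3, h4, h5⟩
    exact ⟨h1, h2, h3, fun p hp h => h4 p hp (h.imp id (e p).1),
      fun p hp h => (Pool.Agent.H30T.cubic_modp A B hp).2 (h5 p hp h)⟩
  · rintro ⟨h1, h2, h3, h4, h5⟩
    exact ⟨h1, h2, h3, fun p hp h => h4 p hp (h.imp id (e p).2),
      fun p hp h => (Pool.Agent.H30T.cubic_modp A B hp).1 (h5 p hp h)⟩

theorem twist_one (P : ℤ × ℤ) : twist P 1 = P := by
  show (P.1 * 1 ^ 2, P.2 * 1 ^ 3) = P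
  rw [one_pow, one_pow, mul_one, mul_one]

theorem card_one {P : ℤ × ℤ} (h : SelmerTrivial (curve ℚ P)) :
    Finite (Sel2 (curve ℚ P)) ∧ Nat.card (Sel2 (curve ℚ P)) = 1 := by
  have hs : Subsingleton (Sel2 (curve ℚ P)) := by
    have key : ∀ x : Sel2 (curve ℚ P), x = 0 := by
      intro x
      obtain ⟨z, rfl⟩ := QuotientAddGroup.mk_surjective x
      obtain ⟨Q, hQ, hz⟩ := h z z.2.1 (fun σ => congrFun z.2.2 σ)
      refine (QuotientAddGroup.eq_zero_iff z).2 ?_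
      rw [AddSubgroup.mem_addSubgroupOf]
      exact ⟨Q, hQ, hz.symm⟩
    exact ⟨fun x y => (key x).trans (key y).symm⟩
  exact ⟨inferInstance, Nat.card_unique⟩

open Pool.Agent.Helper29L in
/-- A curve without a rational point of order two is controlled if and only if its 2-Selmer group is zero. -/
theorem controlled_iff {P : ℤ × ℤ} (hd : 4 * P.1 ^ 3 + 27 * P.2 ^ 2 ≠ 0)
    (hz : ∀ z : ℤ, z ^ 3 + P.1 * z + P.2 ≠ 0) : Controlled P ↔ SelDim P 0 := by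
  constructor
  · intro h
    have h1 := (h 1 (adm_one P) ℚ (by
      rw [one_pow, one_pow, mul_one, mul_one]
      exact adm_rat _ _)).selmer
    rw [twist_one] at h1
    exact ⟨(card_one h1).1, by rw [pow_zero]; exact (card_one h1).2⟩
  · intro h t ht M _ _ hM
    have h2 : Nat.card (Sel2 (curve ℚ (P.1, P.2))) = 1 := by
      have := h.2
      rwa [pow_zero] at this
    obtain ⟨h3, h4, h5, h6⟩ := Pool.Agent.H29C.allm P.1 P.2 hd hz h2 t (adm_iff.1 ht) M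
      (admE_iff.1 hM)
    exact ⟨h3, h4, h5, h6⟩

open Pool.Agent.Helper29L in
theorem rankSha_iff {P : ℤ × ℤ} (hd : 4 * P.1 ^ 3 + 27 * P.2 ^ 2 ≠ 0)
    (hz : ∀ z : ℤ, z ^ 3 + P.1 * z + P.2 ≠ 0) (n : ℕ) : RankSha P (2 ^ n) ↔ SelDim P n := by
  have h := Pool.Agent.H30GR.card_sel_rank (F := ℚ) (q := P) hd (Pool.Agent.H29A.SUPW.rat_root hz)
  constructor
  · rintro ⟨-, h2⟩
    have h3 : Nat.card (Sel2 (curve ℚ P)) = 2 ^ n := by rw [h, mul_comm, h2]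
    exact ⟨Nat.finite_of_card_ne_zero (by rw [h3]; positivity), h3⟩
  · rintro ⟨h1, h2⟩
    have h3 : 2 ^ Module.finrank ℤ (Pts (curve ℚ P) ℚ) *
        Nat.card {x : Sha (curve ℚ P) // 2 • x = 0} = 2 ^ n := by
      rw [← h2, h, mul_comm]
    refine ⟨Nat.finite_of_card_ne_zero fun h4 => ?_, h3⟩
    rw [h4, mul_zero] at h3
    exact absurd h3.symm (by positivity)

/-! ### The twists -/

theorem disc_twist {P : ℤ × ℤ} (hd : 4 * P.1 ^ 3 + 27 * P.2 ^ 2 ≠ 0) {d : ℤ} (h0 : d ≠ 0) :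
    4 * (twist P d).1 ^ 3 + 27 * (twist P d).2 ^ 2 ≠ 0 := by
  have e : 4 * (twist P d).1 ^ 3 + 27 * (twist P d).2 ^ 2 = d ^ 6 * (4 * P.1 ^ 3 + 27 * P.2 ^ 2) := by
    show 4 * (P.1 * d ^ 2) ^ 3 + 27 * (P.2 * d ^ 3) ^ 2 = _
    ring
  rw [e]
  exact mul_ne_zero (pow_ne_zero _ h0) hd

theorem zero_twist {P : ℤ × ℤ} (hz : ∀ z : ℤ, z ^ 3 + P.1 * z + P.2 ≠ 0) {d : ℤ} (h0 : d ≠ 0) :
    ∀ z : ℤ, z ^ 3 + (twist P d).1 * z + (twist P d).2 ≠ 0 := by
  intro z h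
  have hd : (d : ℚ) ≠ 0 := by exact_mod_cast h0
  have h1 : (z : ℚ) ^ 3 + P.1 * d ^ 2 * z + P.2 * d ^ 3 = 0 := by exact_mod_cast h
  refine Pool.Agent.H29A.SUPW.rat_root hz ((z : ℚ) / d) ?_
  field_simp
  linear_combination h1

/-- The many admissible twists and fields. -/
theorem many_of {P : ℤ × ℤ} (hd : 4 * P.1 ^ 3 + 27 * P.2 ^ 2 ≠ 0)
    (hz : ∀ z : ℤ, z ^ 3 + P.1 * z + P.2 ≠ 0) : Many P := by
  refine ⟨fun N => ?_, fun M _ _ hM => Pool.Agent.H29C.tow P.1 P.2 hd hz M hM⟩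
  obtain ⟨l, hl, hN, h8, hsq, hno⟩ := Pool.Agent.H29C.many P.1 P.2 hd hz
    (4 * P.1 ^ 3 + 27 * P.2 ^ 2).natAbs.primeFactors N
  refine ⟨l, hl, hN, ?_, ?_, ?_, fun p hp hpd => ?_, fun p hp hpl => ?_⟩
  · exact_mod_cast hl.pos
  · exact Int.squarefree_natCast.2 hl.prime.squarefree
  · exact_mod_cast h8
  · refine hsq p ?_ hp
    rw [Nat.mem_primeFactors]
    refine ⟨hp, ?_, Int.natAbs_ne_zero.2 hd⟩
    exact Int.natCast_dvd.1 ((dvd_pow_self (p : ℤ) two_ne_zero).trans hpd)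
  · have h1 : p ∣ l := by exact_mod_cast hpl
    rw [(Nat.prime_dvd_prime_iff_eq hp hl).1 h1]
    exact hno

/-! ### The shares -/

open Pool.Agent.Helper29L in
theorem inj_of {j : ℕ} {𝒬 : ℕ → Finset ℕ} (hdis : ∀ i < j, ∀ i' < i, Disjoint (𝒬 i') (𝒬 i))
    {Q : Fin j → ℕ} (hQ1 : ∀ i : Fin j, Q i ∈ 𝒬 i) : Function.Injective Q := by
  intro i i' h
  by_contra hne
  have hij : (i : ℕ) ≠ i' := fun h3 => hne (Fin.ext h3)
  have m1 : Q i ∈ 𝒬 i := hQ1 i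
  have m2 : Q i ∈ 𝒬 i' := by
    rw [h]
    exact hQ1 i'
  rcases lt_or_gt_of_ne hij with h3 | h3
  · exact Finset.disjoint_left.1 (hdis i' i'.2 i h3) m1 m2
  · exact Finset.disjoint_left.1 (hdis i i.2 i' h3) m2 m1

open Pool.Agent.Helper29L in
theorem share_eq {j : ℕ} {𝒬 : ℕ → Finset ℕ} (hdis : ∀ i < j, ∀ i' < i, Disjoint (𝒬 i') (𝒬 i))
    (P : ℤ × ℤ) (𝒮 : Set (ℤ × ℤ)) : share j 𝒬 P 𝒮 = frac j (lv 𝒬 P)
      (fun Z => twist P ((∏ Q ∈ Z, Q : ℕ) : ℤ) ∈ 𝒮) := by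
  symm
  refine frac_val _ _ fun Q => ?_
  rw [Finset.mem_filter]
  refine and_congr_right fun hQ => ?_
  have hQ1 := Fintype.mem_piFinset.1 hQ
  have hinj := inj_of hdis fun i => (Finset.mem_filter.1 (hQ1 i)).1
  rw [Finset.prod_image fun i _ i' _ h => hinj h]

open Pool.Agent.Helper29L in
theorem fans_of {M₀ : Type} [Field M₀] [NumberField M₀] {ε : ℝ} {k : ℕ} {𝒬 : ℕ → Finset ℕ}
    (h8D : ∀ i < k + 1, Pool.Agent.Helper29K.Pr8 (𝒬 i) ∧ ∀ Q ∈ 𝒬 i, Q ∈ {Q | SplitsAt M₀ Q})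
    (hdis : ∀ i < k + 1, ∀ i' < i, Disjoint (𝒬 i') (𝒬 i)) {P : ℤ × ℤ}
    (hd : 4 * P.1 ^ 3 + 27 * P.2 ^ 2 ≠ 0) (hz : ∀ z : ℤ, z ^ 3 + P.1 * z + P.2 ≠ 0)
    (h : NiceP k 𝒬 ε P) : Fans M₀ ε k 𝒬 P := by
  obtain ⟨hne, s, -, hs⟩ := h
  have h8 : ∀ i < k + 1, Pool.Agent.Helper29K.Pr8 (𝒬 i) := fun i hi => (h8D i hi).1
  have hT : ∀ j ≤ k + 1, ∀ Q : Fin j → ℕ, (∀ i : Fin j, Q i ∈ lv 𝒬 P i) →
      ((∏ q ∈ Finset.univ.image Q, q : ℕ) : ℤ) ≠ 0 := by
    intro j hj Q hQ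
    rw [Int.natCast_ne_zero]
    refine (Finset.prod_pos fun q hq => ?_).ne'
    obtain ⟨i, -, rfl⟩ := Finset.mem_image.1 hq
    have hi := i.2
    exact (h8 i (by omega) _ (Finset.mem_filter.1 (hQ i)).1).1.pos
  have hB : ∀ j ≤ k + 1, ∀ B : Set ℕ, share j 𝒬 P {E | ∃ n ∈ B, RankSha E (2 ^ n)} =
      frac j (lv 𝒬 P) (fun Z => ∃ n ∈ B, SelDim (twist P ((∏ Q ∈ Z, Q : ℕ) : ℤ)) n) := by
    intro j hj B
    rw [share_eq (fun i hi => hdis i (by omega))]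
    refine frac_congr' fun Q hQ => ?_
    have h0 := hT j hj Q hQ
    have hr := rankSha_iff (disc_twist hd h0) (zero_twist hz h0)
    show (∃ n ∈ B, RankSha _ (2 ^ n)) ↔ _
    constructor
    · rintro ⟨n, hn, h3⟩
      exact ⟨n, hn, (hr n).1 h3⟩
    · rintro ⟨n, hn, h3⟩
      exact ⟨n, hn, (hr n).2 h3⟩
  have hpar : ∀ (j n : ℕ), n % 2 = (s + j) % 2 →
      ∑' m, (({n} : Set ℕ) ∩ {m | m % 2 = (s + j) % 2}).indicator poonenRains m = poonenRains n := by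
    intro j n hn
    have e : (({n} : Set ℕ) ∩ {m | m % 2 = (s + j) % 2}) = {n} := by
      ext m
      constructor
      · exact fun h => h.1
      · intro h
        rw [Set.mem_singleton_iff.1 h]
        exact ⟨rfl, hn⟩
    rw [e]
    exact single _ n
  refine ⟨hz, fun i hi => hne i (Nat.lt_succ_of_le hi), fun hM j hj Q hQ => ?_, s,
    fun j hj => ⟨fun hjs => ?_, fun hjs => ?_, fun B => ?_⟩⟩
  · refine Pool.Agent.H29C.Adm0.adm_tw hM fun p hp hpd => ?_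
    have hpd' : p ∣ ∏ i, Q i := by exact_mod_cast hpd
    obtain ⟨i, -, hi⟩ := (hp.prime.dvd_finset_prod_iff _).1 hpd'
    have hij := i.2
    have h1 := (Finset.mem_filter.1 (hQ i)).1
    have h2 := h8D i (by omega)
    rw [(Nat.prime_dvd_prime_iff_eq hp (h2.1 _ h1).1).1 hi]
    exact h2.2 _ h1
  · have hj' : j ≤ k + 1 := by omega
    have h1 := hs j hj {0}
    have e1 : ∑' m, (({0} : Set ℕ) ∩ {m | m % 2 = (s + j) % 2}).indicator C2 m = C2 0 :=
      hpar j 0 (by omega)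
    rw [e1] at h1
    have e2 : share j 𝒬 P {E | Controlled E} = frac j (lv 𝒬 P)
        (fun Z => ∃ n ∈ ({0} : Set ℕ), SelDim (twist P ((∏ Q ∈ Z, Q : ℕ) : ℤ)) n) := by
      rw [share_eq (fun i hi => hdis i (by omega))]
      refine frac_congr' fun Q hQ => ?_
      have h0 := hT j hj' Q hQ
      have h2 := controlled_iff (disc_twist hd h0) (zero_twist hz h0)
      show Controlled _ ↔ _
      rw [h2]
      constructor
      · intro h3
        exact ⟨0, rfl, h3⟩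
      · rintro ⟨n, hn, h3⟩
        rwa [Set.mem_singleton_iff.1 hn] at h3
    rw [e2]
    exact h1
  · have hj' : j ≤ k + 1 := by omega
    have h1 := hs j hj {1}
    have e1 : ∑' m, (({1} : Set ℕ) ∩ {m | m % 2 = (s + j) % 2}).indicator C2 m = C2 1 :=
      hpar j 1 (by omega)
    rw [e1] at h1
    have e2 : share j 𝒬 P {E | RankSha E 2} = frac j (lv 𝒬 P)
        (fun Z => ∃ n ∈ ({1} : Set ℕ), SelDim (twist P ((∏ Q ∈ Z, Q : ℕ) : ℤ)) n) := by
      rw [← hB j hj']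
      congr 1
      ext E
      show RankSha E 2 ↔ ∃ n ∈ ({1} : Set ℕ), RankSha E (2 ^ n)
      constructor
      · intro h3
        exact ⟨1, rfl, by rwa [pow_one]⟩
      · rintro ⟨n, hn, h3⟩
        rw [Set.mem_singleton_iff.1 hn, pow_one] at h3
        exact h3
    rw [e2]
    exact h1
  · have hj' : j ≤ k + 1 := by omega
    rw [hB j hj']
    exact hs j hj B

theorem fans_mono {M₀ : Type} [Field M₀] [NumberField M₀] {ε δ : ℝ} (h : ε ≤ δ) {k : ℕ}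
    {𝒬 : ℕ → Finset ℕ} {P : ℤ × ℤ} (hP : Fans M₀ ε k 𝒬 P) : Fans M₀ δ k 𝒬 P := by
  obtain ⟨h1, h2, h2', s, h3⟩ := hP
  exact ⟨h1, h2, h2', s, fun j hj => ⟨fun hs => ((h3 j hj).1 hs).trans h,
    fun hs => ((h3 j hj).2.1 hs).trans h, fun B => ((h3 j hj).2.2 B).trans h⟩⟩

/-! ### Counting -/

open Pool.Agent.Helper29L in
theorem famT_sub (X : ℕ) : FamT X ⊆ minimalPairs X := by
  intro P hP
  have hsq := hP.1.sqfree
  refine ⟨⟨hsq.ne_zero, hP.2⟩, fun p hp h3 => ?_⟩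
  obtain ⟨⟨u, hu⟩, ⟨v, hv⟩⟩ := h3
  have h4 : (p : ℤ) * p ∣ 4 * P.1 ^ 3 + 27 * P.2 ^ 2 := by
    rw [hu, hv]
    exact ⟨4 * (p : ℤ) ^ 10 * u ^ 3 + 27 * (p : ℤ) ^ 10 * v ^ 2, by ring⟩
  have h5 := Int.isUnit_iff.1 (hsq _ h4)
  have h6 := hp.one_lt
  omega

open Pool.Agent.Helper29L in
theorem minimal_many : ∃ c : ℝ, 0 < c ∧ ∀ᶠ X : ℕ in atTop,
    c * ((pairs X).ncard : ℝ) ≤ ((minimalPairs X).ncard : ℝ) := by
  obtain ⟨c, hc, h⟩ := lowb
  have hgr : GoodRes ∅ (fun _ => 0) :=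
    ⟨fun Q hQ => absurd hQ (Finset.notMem_empty _), fun Q hQ => absurd hQ (Finset.notMem_empty _)⟩
  refine ⟨c / 9, by positivity, ?_⟩
  filter_upwards [h ∅ (fun _ => 0) hgr, eventually_ge_atTop 1] with X h1 h2
  have hfin : (minimalPairs X).Finite := (fin_hgt X).subset fun P hP => hP.1.2
  have hsub : FamT X ⊆ minimalPairs X := famT_sub X
  have h3 := tot X h2
  have h4 : ((pairs X).ncard : ℝ) ≤ 9 * (X : ℝ) ^ (5 / 6 : ℝ) := by
    refine le_trans ?_ h3.2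
    exact_mod_cast Set.ncard_le_ncard
      (show pairs X ⊆ {p : ℤ × ℤ | hgt p ≤ X} from fun P hP => hP.2) h3.1
  have h5 : (NS ∅ (fun _ => 0) X : ℝ) = ((FamT X).ncard : ℝ) := by
    unfold NS FamT
    congr 2
    ext p
    exact and_congr_left' famS_empty
  rw [h5, Finset.prod_empty] at h1
  have h6 : c * (X : ℝ) ^ (5 / 6 : ℝ) ≤ ((FamT X).ncard : ℝ) := by simpa using h1
  calc c / 9 * ((pairs X).ncard : ℝ) ≤ c / 9 * (9 * (X : ℝ) ^ (5 / 6 : ℝ)) :=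
        mul_le_mul_of_nonneg_left h4 (by positivity)
    _ = c * (X : ℝ) ^ (5 / 6 : ℝ) := by ring
    _ ≤ _ := h6
    _ ≤ _ := Nat.cast_le.2 (Set.ncard_le_ncard hsub hfin)

open Pool.Agent.Helper29L in
theorem main (M₀ : Type) [Field M₀] [NumberField M₀] (hgal : IsGalois ℚ M₀) {ε : ℝ} (hε : 0 < ε) :
    ∃ (k : ℕ) (𝒬 : ℕ → Finset ℕ),
    (∀ i ≤ k, ∀ Q ∈ 𝒬 i, Q.Prime ∧ Q % 8 = 1 ∧ SplitsAt M₀ Q) ∧
    (∀ i ≤ k, ∀ j < i, Disjoint (𝒬 j) (𝒬 i)) ∧ MostCurves ε (Fans M₀ ε k 𝒬) := by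
  obtain ⟨c, hc, hmin⟩ := minimal_many
  have hε' : 0 < min ε (ε * c) := lt_min hε (mul_pos hε hc)
  obtain ⟨k, 𝒬, h8, hdis, hev⟩ := Pool.Agent.H29C.finD (𝒟 := {Q | SplitsAt M₀ Q})
    (Pool.Agent.H29C.t_PRD M₀ hgal) hε'
  refine ⟨k, 𝒬, fun i hi Q hQ => ?_, fun i hi => hdis i (Nat.lt_succ_of_le hi), ?_⟩
  · have h1 := h8 i (Nat.lt_succ_of_le hi)
    exact ⟨(h1.1 Q hQ).1, (h1.1 Q hQ).2, h1.2 Q hQ⟩
  filter_upwards [hev, hmin] with X hX hm
  have hfin : (pairs X).Finite := (fin_hgt X).subset fun P hP => hP.2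
  have key : ({P ∈ pairs X | ¬ Fans M₀ ε k 𝒬 P}.ncard : ℝ) ≤ min ε (ε * c) * ((pairs X).ncard : ℝ) := by
    refine le_trans ?_ hX
    refine Nat.cast_le.2 (Set.ncard_le_ncard (fun P hP => ⟨hP.1, fun hn => hP.2 ?_⟩)
      (hfin.subset fun P hP => hP.1))
    exact fans_mono (min_le_left _ _) (fans_of h8 hdis hP.1.1 hn.2 hn.1)
  refine ⟨key.trans (mul_le_mul_of_nonneg_right (min_le_left _ _) (Nat.cast_nonneg _)), ?_⟩
  calc ({P ∈ minimalPairs X | ¬ Fans M₀ ε k 𝒬 P}.ncard : ℝ) ≤ ({P ∈ pairs X | ¬ Fans M₀ ε k 𝒬 P}.ncard : ℝ) :=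
        Nat.cast_le.2 (Set.ncard_le_ncard (fun P hP => ⟨hP.1.1, hP.2⟩) (hfin.subset fun P hP => hP.1))
    _ ≤ min ε (ε * c) * ((pairs X).ncard : ℝ) := key
    _ ≤ (ε * c) * ((pairs X).ncard : ℝ) :=
        mul_le_mul_of_nonneg_right (min_le_right _ _) (Nat.cast_nonneg _)
    _ = ε * (c * ((pairs X).ncard : ℝ)) := by ring
    _ ≤ ε * ((minimalPairs X).ncard : ℝ) := mul_le_mul_of_nonneg_left hm hε.le

theorem one_val : poonenRains 1 = 2 * poonenRains 0 := by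
  unfold poonenRains
  rw [show Finset.Icc 1 0 = (∅ : Finset ℕ) from rfl, Finset.prod_empty,
    show Finset.Icc 1 1 = ({1} : Finset ℕ) from rfl, Finset.prod_singleton]
  ring

/-- A bounded twist which is controlled. -/
theorem exists_twist {M₀ : Type} [Field M₀] [NumberField M₀] {ε : ℝ} (hε : ε ≤ 1 / 5) {k : ℕ}
    {𝒬 : ℕ → Finset ℕ} (h8 : ∀ i ≤ k, ∀ Q ∈ 𝒬 i, Q.Prime ∧ Q % 8 = 1 ∧ SplitsAt M₀ Q) (hdis : ∀ i ≤ k, ∀ j < i, Disjoint (𝒬 j) (𝒬 i))
    {P : ℤ × ℤ} (h : Fans M₀ ε k 𝒬 P) :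
    ∃ d : ℕ, 1 ≤ d ∧ d ≤ ∏ Q ∈ (Finset.range (k + 1)).biUnion 𝒬, Q ∧ Squarefree d ∧
      Controlled (twist P d) ∧
      (AdmissibleE M₀ P.1 P.2 → AdmissibleE M₀ (twist P (d : ℤ)).1 (twist P (d : ℤ)).2) := by
  obtain ⟨-, -, hadm, s, hs⟩ := h
  have hc0 : 1 / 5 < poonenRains 0 := Pool.Agent.Helper29L.const_lt
  obtain ⟨j, hj, hjs⟩ : ∃ j : ℕ, (j = k ∨ j = k + 1) ∧ j % 2 = s % 2 := by
    by_cases h : k % 2 = s % 2
    · exact ⟨k, Or.inl rfl, h⟩
    · exact ⟨k + 1, Or.inr rfl, by omega⟩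
  have h1 := (abs_le.1 ((hs j hj).1 hjs)).1
  have hp : 0 < share j 𝒬 P {E | Controlled E} := by linarith
  have h5 : ((Fintype.piFinset fun i : Fin j => level (𝒬 i) P).filter fun Q =>
      twist P ((∏ i, Q i : ℕ) : ℤ) ∈ {E | Controlled E}).Nonempty := by
    rw [Finset.nonempty_iff_ne_empty]
    intro h6
    unfold share at hp
    rw [h6, Finset.card_empty, Nat.cast_zero, zero_div] at hp
    exact lt_irrefl _ hp
  obtain ⟨Q, hQ⟩ := h5
  obtain ⟨hQ1, hQ2⟩ := Finset.mem_filter.1 hQ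
  have hQ3 := Fintype.mem_piFinset.1 hQ1
  have hmem : ∀ i : Fin j, Q i ∈ 𝒬 i := fun i => (Finset.mem_filter.1 (hQ3 i)).1
  have hik : ∀ i : Fin j, (i : ℕ) ≤ k := fun i => by
    have := i.2
    omega
  have hprime : ∀ i : Fin j, (Q i).Prime := fun i => (h8 i (hik i) _ (hmem i)).1
  have hinj : Function.Injective Q := inj_of (fun i hi => hdis i (by omega)) hmem
  have e2 : ∏ q ∈ Finset.univ.image Q, q = ∏ i, Q i := Finset.prod_image fun i _ i' _ h => hinj h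
  refine ⟨∏ i, Q i, Finset.prod_pos fun i _ => (hprime i).pos, ?_, ?_, hQ2,
    fun hM => hadm hM j (by omega) Q hQ3⟩
  · rw [← e2]
    refine Finset.prod_le_prod_of_subset_of_one_le' ?_ ?_
    · intro q hq
      obtain ⟨i, -, rfl⟩ := Finset.mem_image.1 hq
      exact Finset.mem_biUnion.2 ⟨i, Finset.mem_range.2 (Nat.lt_succ_of_le (hik i)), hmem i⟩
    · intro q hq _
      obtain ⟨i, hi, hq⟩ := Finset.mem_biUnion.1 hq
      exact (h8 i (Nat.le_of_lt_succ (Finset.mem_range.1 hi)) q hq).1.one_lt.le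
  · refine Finset.squarefree_prod_of_pairwise_isCoprime ?_ fun i _ => (hprime i).prime.squarefree
    intro i _ i' _ hne
    exact Nat.coprime_iff_isRelPrime.1
      ((Nat.coprime_primes (hprime i) (hprime i')).2 fun h => hne (hinj h))

/-- **Almost all elliptic curves over `ℚ`.** (1) `t = 1` and `M = ℚ` are admissible. (2) There are many
admissible `t` and `M`. (3) The given field `M₀` is admissible for a positive proportion of the curves. (4) The bounded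
twists of almost all curves. (5) Almost all curves have a bounded twist which is controlled. (6) The constants. -/
theorem result (M₀ : Type) [Field M₀] [NumberField M₀] (hgal : IsGalois ℚ M₀)
    (hdeg : ∃ n : ℕ, Module.finrank ℚ M₀ = 2 ^ n) (hreal : Nonempty (M₀ →+* ℝ))
    (htwo : SplitsAt M₀ 2) :
    (∀ P : ℤ × ℤ, AdmissibleTwist P 1 ∧ AdmissibleE ℚ P.1 P.2) ∧
    (∀ P : ℤ × ℤ, 4 * P.1 ^ 3 + 27 * P.2 ^ 2 ≠ 0 → (∀ z : ℤ, z ^ 3 + P.1 * z + P.2 ≠ 0) → Many P) ∧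
    (∃ c : ℝ, 0 < c ∧ ∀ᶠ X : ℕ in atTop, c * ((pairs X).ncard : ℝ) ≤
      ({P ∈ minimalPairs X | AdmissibleE M₀ P.1 P.2}.ncard : ℝ)) ∧
    (∀ ε : ℝ, 0 < ε → ∃ (k : ℕ) (𝒬 : ℕ → Finset ℕ),
      (∀ i ≤ k, ∀ Q ∈ 𝒬 i, Q.Prime ∧ Q % 8 = 1 ∧ SplitsAt M₀ Q) ∧
      (∀ i ≤ k, ∀ j < i, Disjoint (𝒬 j) (𝒬 i)) ∧ MostCurves ε (Fans M₀ ε k 𝒬)) ∧
    (∀ ε : ℝ, 0 < ε → ∃ D : ℕ, MostCurves ε fun P => (∀ z : ℤ, z ^ 3 + P.1 * z + P.2 ≠ 0) ∧
      ∃ d : ℕ, 1 ≤ d ∧ d ≤ D ∧ Squarefree d ∧ Controlled (twist P d) ∧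
        (AdmissibleE M₀ P.1 P.2 → AdmissibleE M₀ (twist P (d : ℤ)).1 (twist P (d : ℤ)).2)) ∧
    0.4 < 2 * poonenRains 0 ∧ 0.8 < 2 * poonenRains 1 := by
  have hc0 : 1 / 5 < poonenRains 0 := Pool.Agent.Helper29L.const_lt
  refine ⟨fun P => ⟨adm_one P, adm_rat _ _⟩, fun P hd hz => many_of hd hz, ?_,
    fun ε hε => main M₀ hgal hε, fun ε hε => ?_, by linarith, by rw [one_val]; linarith⟩
  · obtain ⟨c, hc, h⟩ := Pool.Agent.H29C.Adm0.dens M₀ hgal hdeg hreal htwo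
    refine ⟨c, hc, ?_⟩
    filter_upwards [h] with X hX
    have hf := Pool.Agent.Helper29L.fin_hgt X
    have h1 : ((pairs X).ncard : ℝ) ≤ ({p : ℤ × ℤ | Pool.Agent.Helper29L.hgt p ≤ X}.ncard : ℝ) :=
      Nat.cast_le.2 (Set.ncard_le_ncard (fun P hP => hP.2) hf)
    refine (mul_le_mul_of_nonneg_left h1 hc.le).trans (hX.trans ?_)
    refine Nat.cast_le.2 (Set.ncard_le_ncard (fun P hP => ⟨?_, hP.1.2⟩)
      (hf.subset fun P hP => hP.1.1.2))
    exact famT_sub X ⟨hP.1.1, hP.2⟩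
  obtain ⟨k, 𝒬, h8, hdis, hev⟩ := main M₀ hgal (lt_min hε (by norm_num : (0 : ℝ) < 1 / 5))
  refine ⟨∏ Q ∈ (Finset.range (k + 1)).biUnion 𝒬, Q, ?_⟩
  filter_upwards [hev] with X hX
  have hfin : (pairs X).Finite := (Pool.Agent.Helper29L.fin_hgt X).subset fun P hP => hP.2
  have hmono := fun P (hP : Fans M₀ (min ε (1 / 5)) k 𝒬 P) =>
    exists_twist (min_le_right _ _) h8 hdis hP
  refine ⟨le_trans ?_ (hX.1.trans (mul_le_mul_of_nonneg_right (min_le_left _ _) (Nat.cast_nonneg _))),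
    le_trans ?_ (hX.2.trans (mul_le_mul_of_nonneg_right (min_le_left _ _) (Nat.cast_nonneg _)))⟩
  · exact Nat.cast_le.2 (Set.ncard_le_ncard (fun P hP => ⟨hP.1, fun hn => hP.2 ⟨hn.1, hmono P hn⟩⟩)
      (hfin.subset fun P hP => hP.1))
  · exact Nat.cast_le.2 (Set.ncard_le_ncard (fun P hP => ⟨hP.1, fun hn => hP.2 ⟨hn.1, hmono P hn⟩⟩)
      (hfin.subset fun P hP => hP.1.1))

end Pool.Agent.Results.MP_f50388_nt.AlmostEveryCurve
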