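import Pool.Agent.Helper29K.NF
import Pool.Agent.H30GR.Low5
import Pool.Agent.Helper29L.Ctrl3
import Pool.Agent.Helper29L.Ctrl4
import Pool.Agent.Helper29L.Lin
import Pool.Agent.Helper29L.Size
import Pool.Agent.Helper29L.LOW10
import Pool.Agent.Helper29L.Up
import Pool.Agent.Helper29L.MK
import Pool.Agent.Helper29L.Lev
import Pool.Agent.Helper29L.Tw
import Pool.Agent.Helper29L.Shell1
import Pool.Agent.Helper29L.Shell2
import Pool.Agent.Helper29L.TV

/-!
# Large families: the rank and Ш[2^∞] over ALL admissible number fields K at once, with the proportion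
# of Poonen and Rains

The elliptic curves over `ℚ` are given by pairs `P = (a, b)`, ordered by `H(a, b) = max (|a| ^ 3) (b ^ 2)`. Let
`C_{2, 0} = ∏_{j ≥ 0} (1 + 2^{-j})⁻¹ = 0.2097…`. A number field `K` is admissible for `E = P` (`Admissible`) if `K/ℚ` is
Galois of degree a power of two, `2` is unramified in `K`, the primes which are ramified in `K` do not
divide `4 a ^ 3 + 27 b ^ 2`, and the odd primes which divide `a` and `b` split completely in `K`.

The curve `E` is called controlled if for ALL number fields `K` which are admissible for `E`: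

* `∏ #E(𝔽_p)[2] ≤ 2 ^ (rank E(K)) * #Ш(E/K)[2] ≤ (∏ #E(𝔽_p)[2]) ^ ([K : ℚ] - 1)`, the products over the
  primes `p` which are ramified in `K`; the middle term is `#Sel_2(E/K)`, and `Ш(E/K)[2]` is finite;
* if `K` is quadratic then `2 ^ (rank E(K)) * #Ш(E/K)[2] = ∏_{p ramified in K} #E(𝔽_p)[2]`;
* if `E(𝔽_p)[2] = 0` for all the ramified primes, then `E(K) = 0`, `Sel_2(E/K) = 0` and `Ш(E/K)[2^∞] = 0`, and
  the same holds for the twists of `E` over `K` by ALL the squarefree integers `t`, not `3` modulo `4`,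
  with `E(𝔽_p)[2] = 0` for the odd primes `p ∣ t`.

Theorem. For every `ε > 0` there is a family `𝓕` of elliptic curves (`a > 0`, `(a, b)` modulo `M` in a set
`R`, and `p ^ 2` does not divide `4 a ^ 3 + 27 b ^ 2` for the primes `p` which do not divide `M`), which consists of
minimal pairs with `a = b = 3` modulo `4`, without rational points of order two, and which has positive
lower density among all elliptic curves over `ℚ`, such that

* a curve `E` in `𝓕` is controlled if and only if `Sel_2(E/ℚ) = 0`;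
* for all large `X` the proportion of the controlled curves in `𝓕`, `H ≤ X`, is `C_{2, 0}`, up to `ε`.

Moreover `C_{2, 0} > 0.2`: in suitable large families more than one fifth of the curves are controlled.

Proof. The proportion of the curves with `Sel_2(E/ℚ) = 0` in the families is a case of the theorem in
`Results/MP_8cb858_nt/FamiliesNearPoonenRains.lean`. The members of the families are the twists `E₀^(d)` of
curves `E₀` with squarefree discriminant, and `d` is a product of primes `Q ∣ b` modulo which `x ^ 2 + a` is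
irreducible. The bridge is the deterministic theorem (`Helper29L/Ctrl.lean`): if `Sel_2(E₀^(d)/ℚ) = 0` there is
no nontrivial class in `L^*/L^{*2}`, `L = ℚ[x]/(x ^ 3 + a x + b)`, of square norm, even outside `d`, of the right type
at `2` and at the primes `Q ∣ d` (such a class gives a nontrivial element of the Selmer group). The
theorems of `H30GR` deduce the assertions on all the fields `K` from this, by descent along the
2-extensions.

Written with helper30, helper90, helper28, helper24, helper52, helper61, helper23 (the files of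
`Pool/Agent/Helper29L`), on the library of the projects named in their headers.
-/

set_option autoImplicit false
set_option linter.all false

namespace Pool.Agent.Results.MP_f50388_nt.LargeFamiliesAllFields

open NumberField Filter
open Pool.Agent.H30EV (IsMinimal curve Pts twist Trivial TwistFor FieldFor SelmerTrivial)
open Pool.Agent.H30GR

/-- The height `H(a, b) = max (|a| ^ 3) (|b| ^ 2)`. -/
def height (P : ℤ × ℤ) : ℕ := max (P.1.natAbs ^ 3) (P.2.natAbs ^ 2)

/-- All pairs `(a, b)` of integers with `4 a ^ 3 + 27 b ^ 2 ≠ 0` and `H(a, b) ≤ X`. -/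
def pairs (X : ℕ) : Set (ℤ × ℤ) := {P | 4 * P.1 ^ 3 + 27 * P.2 ^ 2 ≠ 0 ∧ height P ≤ X}

/-- The set `𝓕` has positive lower density among all pairs, ordered by height. -/
def PositiveLowerDensity (𝓕 : Set (ℤ × ℤ)) : Prop :=
  ∃ c : ℝ, 0 < c ∧ ∀ᶠ X : ℕ in atTop, c * ((pairs X).ncard : ℝ) ≤ ((𝓕 ∩ pairs X).ncard : ℝ)

/-- The number `C_{2, 0}` of Poonen and Rains. -/
noncomputable def poonenRains : ℝ := (∏' j : ℕ, (1 + (1 / 2 : ℝ) ^ j))⁻¹

/-- The conclusions for the curve `q = (a, b)` and the number field `K`. `Sha` and `Sel2` are the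
Tate-Shafarevich group and the 2-Selmer group, `Pts (curve K q) K = E(K)`, and `ramProd K q` is the product
of the `#E(𝔽_p)[2]` over the primes which are ramified in `K`. -/
structure Conclusion (K : Type) [Field K] [NumberField K] (q : ℤ × ℤ) : Prop where
  finite : Finite {x : Sha (curve K q) // 2 • x = 0}
  quadratic : Module.finrank ℚ K = 2 →
    2 ^ Module.finrank ℤ (Pts (curve K q) K) * Nat.card {x : Sha (curve K q) // 2 • x = 0} =
      ramProd K q
  lower : ramProd K q ≤
    2 ^ Module.finrank ℤ (Pts (curve K q) K) * Nat.card {x : Sha (curve K q) // 2 • x = 0}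
  upper : 2 ^ Module.finrank ℤ (Pts (curve K q) K) * Nat.card {x : Sha (curve K q) // 2 • x = 0} ≤
    ramProd K q ^ (Module.finrank ℚ K - 1)
  selmer : Nat.card (Sel2 (curve K q)) =
    2 ^ Module.finrank ℤ (Pts (curve K q) K) * Nat.card {x : Sha (curve K q) // 2 • x = 0}

/-- The curve `q = (a, b)` is controlled over all admissible fields: the conclusions hold, and for the
fields for which the ramified primes `p` satisfy `E(𝔽_p)[2] = 0` (`FieldFor`) the groups `E(K)`,
`Sel_2(E/K)`, `Ш(E/K)[2^∞]` are zero for all the admissible twists (`TwistFor`; `t = 1` is one of them if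
`a`, `b` are `3` modulo `4`). -/
structure Controlled (q : ℤ × ℤ) : Prop where
  growth : ∀ (K : Type) [Field K] [NumberField K], Admissible K q → Conclusion K q
  trivial : ∀ (K : Type) [Field K] [NumberField K], FieldFor K q →
    Trivial K q ∧ ∀ t : ℤ, TwistFor q t → Trivial K (twist q t)

/-- The family given by the set `R` of pairs of classes modulo `M`. -/
def family (M : ℕ) (R : Set (ZMod M × ZMod M)) : Set (ℤ × ℤ) :=
  {P | 0 < P.1 ∧ (((P.1 : ℤ) : ZMod M), ((P.2 : ℤ) : ZMod M)) ∈ R ∧
    ∀ p : ℕ, p.Prime → ¬ p ∣ M → ¬ (p : ℤ) ^ 2 ∣ 4 * P.1 ^ 3 + 27 * P.2 ^ 2}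

/-- The properties of the members: the pair is minimal, `a = b = 3` modulo `4`, there is no rational point
of order two, and the curve is controlled if and only if its 2-Selmer group over `ℚ` is zero. -/
structure Member (P : ℤ × ℤ) : Prop where
  minimal : IsMinimal P.1 P.2
  a_four : P.1 % 4 = 3
  b_four : P.2 % 4 = 3
  root : ∀ x : ℚ, x ^ 3 + (P.1 : ℚ) * x + (P.2 : ℚ) ≠ 0
  iff : Controlled P ↔ SelmerTrivial (curve ℚ P)

/-- The proportion of the controlled curves in the family `𝓕` is `C_{2, 0}` up to `ε`. -/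
def Near (ε : ℝ) (𝓕 : Set (ℤ × ℤ)) : Prop :=
  ∀ᶠ X : ℕ in atTop, |({P : ℤ × ℤ | P ∈ 𝓕 ∩ pairs X ∧ Controlled P}.ncard : ℝ) -
    poonenRains * ((𝓕 ∩ pairs X).ncard : ℝ)| ≤ ε * ((𝓕 ∩ pairs X).ncard : ℝ)

/-! ### The deterministic theorem -/

theorem controlled_of {A B : ℤ} (hG : GSelR A B) : Controlled (A, B) := by
  have ha4 := hG.a4
  have hb4 := hG.b4
  have hpos := hG.pos
  have hAB : 4 * A ^ 3 + 27 * B ^ 2 ≠ 0 := by
    have : 0 < 4 * A ^ 3 + 27 * B ^ 2 := by positivity
    exact this.ne'
  have hnice := Pool.Agent.H30EV.nice_one hAB (Pool.Agent.Helper29K.gsel_of hG)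
  refine ⟨fun K _ _ hK => ?_, fun K _ _ hK => ⟨?_, fun δ hδ => hnice K hK δ hδ⟩⟩
  · have hg := growth_of low hG hK
    have hram : 0 < ramProd K (A, B) := by
      unfold ramProd
      refine finprod_mem_induction (fun n : ℕ => 0 < n) one_pos (fun x y hx hy => Nat.mul_pos hx hy)
        fun p _ => ?_
      unfold redTwo
      omega
    have hfin : Finite {x : Sha (curve K (A, B)) // 2 • x = 0} := by
      refine Nat.finite_of_card_ne_zero fun h6 => ?_
      have h7 := hg.low
      rw [hg.formula, h6, mul_zero] at h7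
      omega
    refine ⟨hfin, fun h4 => ?_, ?_, ?_, hg.formula⟩
    · rw [← hg.formula]
      have h5 := hg.up
      rw [h4, pow_one] at h5
      exact le_antisymm h5 hg.low
    · rw [← hg.formula]
      exact hg.low
    · rw [← hg.formula]
      exact hg.up
  · have h3 := hnice K hK 1 ⟨squarefree_one, fun p hp _ hpd => ?_, Or.inl ⟨ha4, hb4, by norm_num⟩⟩
    · have e1 : twist (A, B) 1 = (A, B) := by
        simp [twist]
      rwa [e1] at h3
    · exfalso
      have : p ∣ 1 := by exact_mod_cast hpd
      exact hp.one_lt.ne' (Nat.dvd_one.1 this)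

theorem selmer_of {P : ℤ × ℤ} (h : Controlled P) : SelmerTrivial (curve ℚ P) :=
  (h.trivial ℚ (Pool.Agent.Helper29L.fieldFor_rat P)).1.selmer

/-- The properties of the members used in the proof. -/
structure PropM (P : ℤ × ℤ) : Prop where
  mem : Pool.Agent.Helper29L.Mem P
  member : Member P
  iff : Controlled P ↔ Pool.Agent.Helper29L.SelDim P 0

open Pool.Agent.Helper29L in
/-- A twist of a curve of the first family is controlled if and only if its 2-Selmer group is zero. -/
theorem propM {q : ℤ × ℤ} {S Z : Finset ℕ} (hF : Pool.Agent.Helper29K.InFamily q) (hS : Typ q S)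
    (hZ : Z ⊆ S) : PropM (twist q ((∏ Q ∈ Z, Q : ℕ) : ℤ)) := by
  obtain ⟨P, hP⟩ : ∃ P : ℤ × ℤ, P = twist q ((∏ Q ∈ Z, Q : ℕ) : ℤ) := ⟨_, rfl⟩
  have h8 : (∏ Q ∈ Z, Q) % 8 = 1 := prod_mod fun Q hQ => (hS.1 Q (hZ hQ)).2
  have h4 := four_tw hF.a_four hF.b_four h8
  have hm : Mem P := by
    rw [hP]
    exact mem_twist hF (sqf_prod hS.1 hZ)
  have h1 : SelDim P 0 → Controlled P := by
    intro h
    rw [hP] at h ⊢
    exact controlled_of (ctrl hF hS hZ h).1
  rw [← hP]
  exact ⟨hm, ⟨⟨hm.disc, hm.min⟩, by rw [hP]; exact h4.1, by rw [hP]; exact h4.2, hm.root,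
    selmer_of, fun h => h1 (selDim_of_trivial h)⟩, fun h => selDim_of_trivial (selmer_of h), h1⟩

open Pool.Agent.Helper29L in
/-- **Large families, all admissible number fields.** -/
theorem result :
    (∀ ε : ℝ, 0 < ε → ∃ (M : ℕ) (R : Set (ZMod M × ZMod M)), 0 < M ∧
      (∀ P ∈ family M R, Member P) ∧ PositiveLowerDensity (family M R) ∧ Near ε (family M R)) ∧
    1 / 5 < poonenRains := by
  have hpr : poonenRains = C2 0 := by
    unfold poonenRains C2
    rw [show Finset.Icc 1 0 = (∅ : Finset ℕ) from rfl, Finset.prod_empty, mul_one]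
  refine ⟨fun ε hε => ?_, by rw [hpr]; exact const_lt⟩
  obtain ⟨M, R, c, hM, hc, hmem, hev⟩ := fin2 PropM (fun q S Z => propM) tot lowb tw1 tw2
    (fun ε hε => main1 NNL.pbad lin2 size slow sup c2 tv lev win lowb (shell lowb) tw1 hε) hε
  have hset : ∀ X : ℕ, family M R ∩ pairs X = {P : ℤ × ℤ | P ∈ Fam M R ∧ hgt P ≤ X} := by
    intro X
    ext P
    exact ⟨fun h => ⟨h.1, h.2.2⟩, fun h => ⟨h.1, (hmem P h.1).mem.disc, h.2⟩⟩
  refine ⟨M, R, hM, fun P hP => (hmem P hP).member, ⟨c, hc, ?_⟩, ?_⟩
  · filter_upwards [hev] with X hX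
    rw [hset]
    refine le_trans (mul_le_mul_of_nonneg_left ?_ hc.le) hX.1
    exact_mod_cast Set.ncard_le_ncard
      (show pairs X ⊆ {p : ℤ × ℤ | hgt p ≤ X} from fun P hP => hP.2) (fin_hgt X)
  · filter_upwards [hev] with X hX
    rw [hset, hpr]
    have h1 := hX.2 {0}
    rw [single] at h1
    have e : {P : ℤ × ℤ | P ∈ {P : ℤ × ℤ | P ∈ Fam M R ∧ hgt P ≤ X} ∧ Controlled P} =
        {P : ℤ × ℤ | P ∈ Fam M R ∧ hgt P ≤ X ∧ ∃ n ∈ ({0} : Set ℕ), SelDim P n} := by
      ext P
      constructor
      · rintro ⟨⟨h1, h2⟩, h3⟩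
        exact ⟨h1, h2, 0, rfl, ((hmem P h1).iff).1 h3⟩
      · rintro ⟨h1, h2, n, hn, h3⟩
        rw [Set.mem_singleton_iff.1 hn] at h3
        exact ⟨⟨h1, h2⟩, ((hmem P h1).iff).2 h3⟩
    rw [e]
    exact h1

end Pool.Agent.Results.MP_f50388_nt.LargeFamiliesAllFields
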