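import Pool.Agent.H30GS.Quad

/-!
# Rank zero and the exact structure of a nonzero 2-primary part of the Tate-Shafarevich group over
# quadratic fields, for a positive proportion of all elliptic curves over `ℚ`

`E : y ^ 2 = x ^ 3 + A x + B` is an elliptic curve over `ℚ`. A prime `l` is *full* for `E` (`FullTwo`) if it
is odd, `E` has good reduction at `l` and `#E(𝔽_l)[2] = 4`.

Theorem: for a positive proportion of all elliptic curves over `ℚ` the following holds. For all finite
lists `l_1, …, l_k` of different full primes there are signs `ε_1, …, ε_k` such that for all `n ≤ k`, ALL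
the squarefree integers `d ≠ 1`, not `3` modulo `4`, with

* `l_1 ⋯ l_n ∣ d`, and the Legendre symbol of `d / l_i` modulo `l_i` is `ε_i` for `i ≤ n`;
* `E(𝔽_p)[2] = 0` for the other odd prime factors `p` of `d`,

and the quadratic field `K = ℚ(√d)`, if it is admissible for `E` (`Admissible`: `2` is unramified in `K`, `E`
has good reduction at the ramified primes, and the odd primes which divide `A` and `B` split in `K`),

`E(K) = 0` and `Ш(E/K)[2^∞] ≅ (ℤ/2) ^ (2 n)`.

Proof.  `H30GS/Main`: for these curves and signs the groups `E(ℚ)`, `Ш(E/ℚ)[2^∞]`, `E^(d)(ℚ)`, `Ш(E^(d)/ℚ)[2^∞]`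
are trivial. So `E(K) = 0` (`H30EV/Quad`), and an element of the 2-primary part of `Ш(E/K)` is killed by
two, because its norm and the norm in the twist are zero (`H30GR/Norm1` to `Norm3`, helper16).  The order of
`Ш(E/K)[2]` is the order of `Sel_2(E/K)`, which is the product of the `#E(𝔽_p)[2]` over the primes `p` ramified in
`K` (`H30GR`, with the lower bound by helper16), and this is `4 ^ n`.
-/

set_option autoImplicit false

open NumberField Filter

namespace Pool.Agent.Results.MP_f50388_nt.ShaOverQuadraticFieldsExact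

open Pool.Agent.H30EV (Curves curve twist)
open Pool.Agent.H30GR (Sha Admissible)
open Pool.Agent.H30GS

/-- There are no points over `K` but the point at infinity, and the 2-primary part of the
Tate-Shafarevich group over `K` is killed by two and has `4 ^ r` elements, so it is isomorphic to
`(ℤ/2) ^ (2 r)`. -/
structure Exact (K : Type) [Field K] [NumberField K] (q : ℤ × ℤ) (r : ℕ) : Prop where
  points : Subsingleton (curve K q).toAffine.Point
  two : ∀ x : Sha (curve K q), (∃ n : ℕ, 2 ^ n • x = 0) → 2 • x = 0
  card : Nat.card {x : Sha (curve K q) // 2 • x = 0} = 4 ^ r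

/-- For every list of different full primes there are signs such that for all the initial parts of the
list, all the integers `d ≠ 1` in the class given by these primes and signs (`SignTwist`), and the field
`K = ℚ(√d)`, if it is admissible: `E(K) = 0` and `Ш(E/K)[2^∞] ≅ (ℤ/2) ^ (2 r)`, where `r` is the number of
the primes in the initial part of the list. -/
def ShaExactSigns (q : ℤ × ℤ) : Prop :=
  ∀ L : List ℕ, L.Nodup → (∀ l ∈ L, FullTwo q l) →
    ∃ ε : ℕ → ℤ, (∀ l ∈ L, ε l = 1 ∨ ε l = -1) ∧
      ∀ n : ℕ, ∀ d : ℤ, SignTwist q (L.take n).toFinset ε d → d ≠ 1 →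
        ∀ (K : Type) [Field K] [NumberField K] (s : K), Module.finrank ℚ K = 2 →
          s ^ 2 = (d : K) → Admissible K q → Exact K q (min n L.length)

theorem result : ∃ c : ℝ, 0 < c ∧ ∀ᶠ X : ℕ in atTop, 0 < (Curves X).ncard ∧
    c * ((Curves X).ncard : ℝ) ≤ ({q ∈ Curves X | ShaExactSigns q}.ncard : ℝ) := by
  obtain ⟨c, hc, h⟩ := main_quad
  refine ⟨c, hc, ?_⟩
  filter_upwards [h] with X hX
  refine ⟨hX.1, hX.2.trans ?_⟩
  refine Nat.cast_le.2 (Set.ncard_le_ncard ?_ ((Pool.Agent.H30EV.curves_fin X).subset fun q hq => hq.1))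
  rintro q ⟨h1, h2⟩
  refine ⟨h1, fun L hL hLF => ?_⟩
  obtain ⟨ε, hε, h3⟩ := h2 L hL hLF
  refine ⟨ε, hε, fun n d hd hd1 K _ _ s hK hs hadm => ?_⟩
  have h4 := h3 n d hd hd1 K s hK hs hadm
  have h5 : (L.take n).toFinset.card = min n L.length := by
    rw [List.toFinset_card_of_nodup (hL.sublist (List.take_sublist n L)), List.length_take]
  rw [h5] at h4
  exact ⟨h4.points, h4.two, h4.card⟩

end Pool.Agent.Results.MP_f50388_nt.ShaOverQuadraticFieldsExact
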